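import Pool.Agent.helper95.RF.SpecC

/-!
# Row rf:CPA (MP_16912e_nt): the point of a tuple
-/

set_option autoImplicit false

namespace Pool.Agent.RF

open Finset NumberField Pool.Agent.helper3.FT

/-! ### basic facts -/

theorem CPA_norm (z : OO) : z.norm = z.re * z.re + z.re * z.im - z.im * z.im := by
  rw [QuadraticAlgebra.norm_def]
  ring

theorem CPA_ns (z : OO) : ((z.norm : ℤ) : OO) = z * star z := by
  have h := QuadraticAlgebra.algebraMap_norm_eq_mul_star z
  rwa [eq_intCast] at h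

theorem CPA_castdvd (n : ℤ) (z : OO) : (n : OO) ∣ z ↔ n ∣ z.re ∧ n ∣ z.im := by
  have h := QuadraticAlgebra.algebraMap_dvd_iff (a := (1 : ℤ)) (b := (1 : ℤ)) (r := n) (z := z)
  rwa [eq_intCast] at h

theorem CPA_cancel {a x y : OO} (ha : a.norm ≠ 0) (h : a * x = a * y) : x = y := by
  have h1 : ((a.norm : ℤ) : OO) * x = ((a.norm : ℤ) : OO) * y := by
    rw [CPA_ns]
    linear_combination star a * h
  have h2 := congrArg QuadraticAlgebra.re h1
  have h3 := congrArg QuadraticAlgebra.im h1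
  simp only [QuadraticAlgebra.re_mul, QuadraticAlgebra.im_mul, QuadraticAlgebra.re_intCast, QuadraticAlgebra.im_intCast, zero_mul, mul_zero,
    add_zero, Int.cast_id] at h2 h3
  ext
  · exact mul_left_cancel₀ ha h2
  · exact mul_left_cancel₀ ha h3

theorem CPA_dcancel {a x y : OO} (ha : a.norm ≠ 0) (h : a * x ∣ a * y) : x ∣ y := by
  obtain ⟨w, hw⟩ := h
  exact ⟨w, CPA_cancel ha (by rw [hw, mul_assoc])⟩

theorem CPA_ph : ph * star ph = -1 := by
  ext <;> rfl

theorem CPA_r5s : star r5 = -r5 := by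
  ext <;> simp [r5]

theorem CPA_r5 : r5 * r5 = 5 := by
  ext <;> rfl

theorem CPA_r5p : r5 = 2 * ph - 1 := by
  ext <;> rfl

theorem CPA_r5re (z : ℤ) : (r5 * (z : OO)).re = -z := by
  simp [r5]

theorem CPA_w2 : w2 = r5 * ph := by
  ext <;> simp [r5, ph, w2]

theorem CPA_star_dvd {a b : OO} (h : a ∣ b) : star a ∣ star b := by
  obtain ⟨c, rfl⟩ := h
  exact ⟨star c, by rw [star_mul']⟩

theorem CPA_icop {m n : ℤ} (h : IsCoprime m n) : IsCoprime (m : OO) (n : OO) := by
  obtain ⟨a, b, hab⟩ := h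
  exact ⟨(a : OO), (b : OO), by exact_mod_cast congrArg (Int.cast : ℤ → OO) hab⟩

/-! ### the prime `k` -/

/-- the data of `k` -/
structure CPA_K (k : OO) (q : ℤ) : Prop where
  pr : Prime q
  eq : k.norm = q ∨ k.norm = -q

theorem CPA_K.qdvd {k : OO} {q : ℤ} (h : CPA_K k q) : k ∣ (q : OO) := by
  have h1 := CPA_ns k
  rcases h.eq with h2 | h2
  · rw [h2] at h1
    exact ⟨star k, h1⟩
  · rw [h2] at h1
    push_cast at h1
    exact ⟨-star k, by linear_combination -h1⟩

theorem CPA_K.n0 {k : OO} {q : ℤ} (h : CPA_K k q) : k.norm ≠ 0 := by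
  rcases h.eq with h2 | h2
  · rw [h2]
    exact h.pr.ne_zero
  · rw [h2, neg_ne_zero]
    exact h.pr.ne_zero

theorem CPA_K.qn {k : OO} {q : ℤ} (h : CPA_K k q) : q ∣ k.norm := by
  rcases h.eq with h2 | h2
  · rw [h2]
  · rw [h2]
    exact (dvd_neg).2 dvd_rfl

theorem CPA_K.nq {k : OO} {q : ℤ} (h : CPA_K k q) : k.norm ∣ q := by
  rcases h.eq with h2 | h2
  · rw [h2]
  · rw [h2]
    exact (neg_dvd).2 dvd_rfl

theorem CPA_K.im {k : OO} {q : ℤ} (h : CPA_K k q) : ¬ q ∣ k.im := by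
  intro h1
  have h2 := h.qn
  rw [CPA_norm] at h2
  have h3 : q ∣ k.re * k.re := by
    have h4 : k.re * k.re = (k.re * k.re + k.re * k.im - k.im * k.im) - k.im * (k.re - k.im) := by ring
    rw [h4]
    exact dvd_sub h2 (h1.mul_right _)
  have h4 : q ∣ k.re := by
    rcases h.pr.dvd_or_dvd h3 with h5 | h5 <;> exact h5
  obtain ⟨a, ha⟩ := h1
  obtain ⟨b, hb⟩ := h4
  have h5 : q * q ∣ q := by
    refine dvd_trans ?_ h.nq
    rw [CPA_norm, ha, hb]
    exact ⟨b * b + b * a - a * a, by ring⟩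
  obtain ⟨c, hc⟩ := h5
  have h6 : q * (1 - q * c) = 0 := by linear_combination hc
  rcases mul_eq_zero.1 h6 with h7 | h7
  · exact h.pr.ne_zero h7
  · exact h.pr.not_isUnit (isUnit_iff_dvd_one.2 ⟨c, by linear_combination h7⟩)

/-- divisibility by `k` -/
theorem CPA_K.dvd_iff {k : OO} {q : ℤ} (h : CPA_K k q) (z : OO) : k ∣ z ↔ q ∣ z.re * k.im - z.im * k.re := by
  constructor
  · rintro ⟨w, rfl⟩
    have e : (k * w).re * k.im - (k * w).im * k.re = -(w.im * k.norm) := by
      rw [CPA_norm]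
      simp only [QuadraticAlgebra.re_mul, QuadraticAlgebra.im_mul]
      ring
    rw [e]
    exact (dvd_neg).2 (h.qn.mul_left _)
  · intro h1
    have h2 : (k.norm : OO) ∣ star k * z := by
      have h3 : (q : OO) ∣ star k * z := by
        rw [CPA_castdvd]
        have e1 : (star k * z).re = (k.re + k.im) * z.re - k.im * z.im := by
          simp only [QuadraticAlgebra.re_mul, QuadraticAlgebra.re_star, QuadraticAlgebra.im_star]
          ring
        have e2 : (star k * z).im = -(z.re * k.im - z.im * k.re) := by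
          simp only [QuadraticAlgebra.im_mul, QuadraticAlgebra.re_star, QuadraticAlgebra.im_star]
          ring
        rw [e1, e2]
        refine ⟨?_, (dvd_neg).2 h1⟩
        have h4 : q ∣ k.im * ((k.re + k.im) * z.re - k.im * z.im) := by
          have e3 : k.im * ((k.re + k.im) * z.re - k.im * z.im) = (k.re + k.im) * (z.re * k.im - z.im * k.re) + z.im * k.norm := by
            rw [CPA_norm]
            ring
          rw [e3]
          exact dvd_add (h1.mul_left _) (h.qn.mul_left _)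
        exact (h.pr.dvd_or_dvd h4).resolve_left h.im
      refine dvd_trans ?_ h3
      exact (Int.cast_dvd_cast _ _ h.nq)
    rw [CPA_ns, mul_comm k (star k)] at h2
    refine CPA_dcancel ?_ h2
    rw [QuadraticAlgebra.norm_star]
    exact h.n0

theorem CPA_K.prime {k : OO} {q : ℤ} (h : CPA_K k q) {z w : OO} (hzw : k ∣ z * w) : k ∣ z ∨ k ∣ w := by
  rw [h.dvd_iff] at hzw
  rw [h.dvd_iff, h.dvd_iff]
  refine h.pr.dvd_or_dvd ?_
  have e : (z.re * k.im - z.im * k.re) * (w.re * k.im - w.im * k.re) =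
      k.im * ((z * w).re * k.im - (z * w).im * k.re) + z.im * w.im * k.norm := by
    rw [CPA_norm]
    simp only [QuadraticAlgebra.re_mul, QuadraticAlgebra.im_mul]
    ring
  rw [e]
  exact dvd_add (hzw.mul_left _) (h.qn.mul_left _)

theorem CPA_K.int {k : OO} {q : ℤ} (h : CPA_K k q) {m : ℤ} (hm : k ∣ (m : OO)) : q ∣ m := by
  rw [h.dvd_iff] at hm
  simp only [QuadraticAlgebra.re_intCast, QuadraticAlgebra.im_intCast, zero_mul, sub_zero, Int.cast_id] at hm
  exact (h.pr.dvd_or_dvd hm).resolve_right h.im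

theorem CPA_K.star {k : OO} {q : ℤ} (h : CPA_K k q) : CPA_K (star k) q :=
  ⟨h.pr, by rw [QuadraticAlgebra.norm_star]; exact h.eq⟩

theorem CPA_K.cint {k : OO} {q : ℤ} (h : CPA_K k q) {m : ℤ} (hm : ¬ q ∣ m) : IsCoprime k (m : OO) := by
  have h1 : IsCoprime (q : ℤ) m := (Prime.coprime_iff_not_dvd h.pr).2 hm
  exact (CPA_icop h1).of_isCoprime_of_dvd_left h.qdvd

theorem CPA_K.cop {k : OO} {q : ℤ} (h : CPA_K k q) (h5 : ¬ q ∣ 5) : IsCoprime k (Star.star k) := by
  have h1 : ¬ q ∣ 5 * (k.im * k.im) := by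
    intro h2
    rcases h.pr.dvd_or_dvd h2 with h3 | h3
    · exact h5 h3
    · rcases h.pr.dvd_or_dvd h3 with h4 | h4 <;> exact h.im h4
  have h2 := h.cint h1
  have h3 : ((5 * (k.im * k.im) : ℤ) : OO) = (k - Star.star k) * (k - Star.star k) := by
    have e : k - Star.star k = (k.im : OO) * r5 := by
      ext
      · simp [r5]
      · simp [r5]
        ring
    rw [e]
    push_cast
    linear_combination -((k.im : OO) * (k.im : OO)) * CPA_r5
  rw [h3] at h2
  have h4 : IsCoprime k (k - Star.star k) := h2.of_mul_right_left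
  have h5 : IsCoprime k (k - Star.star k + (-1) * k) := by
    have := h4.add_mul_left_right (-1)
    rwa [mul_comm] at this
  have e : k - Star.star k + (-1) * k = -Star.star k := by ring
  rw [e] at h5
  exact (IsCoprime.neg_right_iff _ _).1 h5

/-! ### the point -/

theorem CPA : CPA_stmt := by
  intro E P k M₀ M s₀ s hE hP10 hP1 hkp hkE hC hM hs hCG hqM
  set k' : OO := star k with hk'
  set M' : OO := star M with hM'
  set q : ℤ := (k.norm.natAbs : ℤ) with hq
  have hqp : Prime q := Nat.prime_iff_prime_int.1 hkp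
  have hqeq : k.norm = q ∨ k.norm = -q := Int.natAbs_eq k.norm
  have K : CPA_K k q := ⟨hqp, hqeq⟩
  have K' : CPA_K k' q := K.star
  -- `q` is prime to `E`
  have hqE : IsCoprime q (E : ℤ) := Nat.isCoprime_iff_coprime.2 hkE
  have hqE' : ∀ m : ℤ, m ∣ (E : ℤ) → ¬ q ∣ m := by
    intro m hm h
    exact hqp.not_isUnit (hqE.isUnit_of_dvd' dvd_rfl (h.trans hm))
  have hEz : (E : ℤ) = 16 * 5 ^ 6 * P := by rw [hE]; push_cast; ring
  have hq2 : ¬ q ∣ 2 := hqE' 2 ⟨8 * 5 ^ 6 * P, by rw [hEz]; ring⟩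
  have hq5 : ¬ q ∣ 5 := hqE' 5 ⟨16 * 5 ^ 5 * P, by rw [hEz]; ring⟩
  have hqP : ¬ q ∣ (P : ℤ) := hqE' P ⟨16 * 5 ^ 6, by rw [hEz]; ring⟩
  have ckk : IsCoprime k k' := K.cop hq5
  have ck2 : IsCoprime k 2 := by have := K.cint hq2; exact_mod_cast this
  have ck'2 : IsCoprime k' 2 := by have := K'.cint hq2; exact_mod_cast this
  have ck5 : IsCoprime k 5 := by have := K.cint hq5; exact_mod_cast this
  have ck'5 : IsCoprime k' 5 := by have := K'.cint hq5; exact_mod_cast this
  have ckP : IsCoprime k (P : OO) := by have := K.cint hqP; exact_mod_cast this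
  have phu : IsUnit ph := IsUnit.of_mul_eq_one (-star ph) (by rw [mul_neg, CPA_ph, neg_neg])
  have phu' : IsUnit (star ph) := IsUnit.of_mul_eq_one (-ph) (by rw [mul_neg, mul_comm, CPA_ph, neg_neg])
  have hpp := CPA_ph
  have h55 := CPA_r5
  have cph' : ∀ z : OO, IsCoprime z (star ph) := fun z => ⟨0, -ph, by linear_combination (-1 : OO) * hpp⟩
  have cph : ∀ z : OO, IsCoprime z ph := fun z => ⟨0, -star ph, by linear_combination (-1 : OO) * hpp⟩
  -- `16 ∣ M`, `s = 2 + 16 u`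
  have h16E : (16 : ℤ) ∣ (E : ℤ) := ⟨5 ^ 6 * P, by rw [hEz]; ring⟩
  have h56E : (5 ^ 6 : ℤ) ∣ (E : ℤ) := ⟨16 * P, by rw [hEz]; ring⟩
  have hPE : (P : ℤ) ∣ (E : ℤ) := ⟨16 * 5 ^ 6, by rw [hEz]; ring⟩
  have h16E' : (16 : OO) ∣ (E : OO) := by have := (Int.cast_dvd_cast (α := OO) _ _ h16E); exact_mod_cast this
  have h56E' : (5 ^ 6 : OO) ∣ (E : OO) := by have := (Int.cast_dvd_cast (α := OO) _ _ h56E); exact_mod_cast this
  have hPE' : (P : OO) ∣ (E : OO) := by have := (Int.cast_dvd_cast (α := OO) _ _ hPE); exact_mod_cast this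
  have h16M : (16 : OO) ∣ M := by
    have h1 := dvd_add (h16E'.trans hM) hC.m2
    rwa [sub_add_cancel] at h1
  obtain ⟨m, hm⟩ := h16M
  have hm' : M' = 16 * star m := by
    rw [hM', hm, star_mul', star_ofNat]
  obtain ⟨u, hu⟩ : ∃ u : ℤ, s = 2 + 16 * u := by
    obtain ⟨a, ha⟩ := h16E.trans hs
    obtain ⟨b, hb⟩ := hC.s2
    exact ⟨a + b, by linarith⟩
  have ht : ((M.norm : ℤ) : OO) = M * M' := CPA_ns M
  have hsO : (s : OO) = 2 + 16 * (u : OO) := by rw [hu]; push_cast; ring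
  -- (n)
  have hCG' : k ^ 3 ∣ k' ^ 2 * (r5 * (s : OO) - M * M') - 2 * ph * k ^ 2 * M ^ 2 := by
    have := hCG
    unfold CG at this
    rwa [ht] at this
  have hn1 : k ^ 2 ∣ r5 * (s : OO) - M * M' := by
    have h1 : k ^ 2 ∣ k' ^ 2 * (r5 * (s : OO) - M * M') := by
      have h2 : k ^ 2 ∣ k' ^ 2 * (r5 * (s : OO) - M * M') - 2 * ph * k ^ 2 * M ^ 2 := (pow_dvd_pow k (by norm_num)).trans hCG'
      have h3 : k ^ 2 ∣ 2 * ph * k ^ 2 * M ^ 2 := ⟨2 * ph * M ^ 2, by ring⟩
      have h4 := dvd_add h2 h3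
      rwa [sub_add_cancel] at h4
    exact (IsCoprime.pow ckk).dvd_of_dvd_mul_left h1
  have hn2 : 2 * k ^ 2 ∣ r5 * (s : OO) - M * M' := by
    refine (ck2.symm.pow_right).mul_dvd ?_ hn1
    rw [hm, hm', hsO]
    exact ⟨r5 * (1 + 8 * (u : OO)) - 128 * (m * star m), by ring⟩
  obtain ⟨w, hw⟩ := hn2
  obtain ⟨n, hn⟩ : ∃ n : OO, star n = -star ph * w := ⟨star (-star ph * w), star_star _⟩
  set n' : OO := star n with hn'
  have eA : 2 * ph * n' * k ^ 2 = r5 * (s : OO) - M * M' := by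
    rw [hw, hn]
    linear_combination (-2 * w * k ^ 2) * hpp
  have starM : star M' = M := star_star M
  have stark : star k' = k := star_star k
  have starn : star n' = n := star_star n
  have eB : 2 * star ph * n * k' ^ 2 = -(r5 * (s : OO)) - M * M' := by
    have h1 := congrArg star eA
    simp only [star_mul', star_sub, star_pow, star_ofNat, star_intCast, CPA_r5s, starM, starn] at h1
    rw [← hk', ← hM'] at h1
    linear_combination h1
  have c2 : (2 : OO).norm ≠ 0 := by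
    rw [CPA_norm]
    decide
  have e4 : ph * n' * k ^ 2 + star ph * n * k' ^ 2 = -(M * M') := by
    refine CPA_cancel c2 ?_
    linear_combination eA + eB
  -- (5)
  have h5a : k' ∣ n * k ^ 2 - M' ^ 2 := by
    have h1 := CPA_star_dvd hCG'
    simp only [star_mul', star_sub, star_pow, star_ofNat, star_intCast, CPA_r5s, starM, stark] at h1
    rw [← hk', ← hM'] at h1
    have e : k ^ 2 * (-r5 * (s : OO) - M' * M) - 2 * star ph * k' ^ 2 * M' ^ 2 = k' ^ 2 * (2 * star ph * (n * k ^ 2 - M' ^ 2)) := by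
      linear_combination (-k ^ 2) * eB
    rw [e] at h1
    have h2 : k' ^ 2 * k' ∣ k' ^ 2 * (2 * star ph * (n * k ^ 2 - M' ^ 2)) := by
      have e3 : k' ^ 2 * k' = k' ^ 3 := by ring
      rwa [e3]
    have h3 : k' ∣ 2 * star ph * (n * k ^ 2 - M' ^ 2) := by
      refine CPA_dcancel ?_ h2
      rw [map_pow]
      exact pow_ne_zero _ K'.n0
    have h4 : IsCoprime k' (2 * star ph) := ck'2.mul_right (cph' k')
    exact h4.dvd_of_dvd_mul_left h3
  -- the point `X`
  have hX1 : k' ∣ n * M + ph * n' * M' := by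
    have h1 : k' ∣ k ^ 2 * (n * M + ph * n' * M') := by
      have e : k ^ 2 * (n * M + ph * n' * M') = (n * k ^ 2 - M' ^ 2) * M + k' * (-(star ph * n * k' * M')) := by
        linear_combination M' * e4
      rw [e]
      exact dvd_add (h5a.mul_right _) (dvd_mul_right _ _)
    exact (ckk.symm.pow_right).dvd_of_dvd_mul_left h1
  have hX2 : 2 ^ 4 * k' ∣ n * M + ph * n' * M' := by
    refine (ck'2.symm.pow_left).mul_dvd ?_ hX1
    rw [hm, hm']
    exact ⟨n * m + ph * n' * star m, by ring⟩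
  obtain ⟨Y, hY⟩ := hX2
  obtain ⟨X, hX⟩ : ∃ X : OO, X = -(8 * Y) := ⟨_, rfl⟩
  have eX : 2 * k' * X = -(n * M + ph * n' * M') := by
    rw [hY, hX]
    ring
  set X' : OO := star X with hX'
  have eX' : 2 * k * X' = -(n' * M' + star ph * n * M) := by
    have h1 := congrArg star eX
    simp only [star_mul', star_neg, star_add, star_ofNat, starM, starn, stark] at h1
    rw [← hX', ← hM', ← hn'] at h1
    linear_combination h1
  have e2 : n * M = ph * X' * k - X * k' := by
    refine CPA_cancel c2 ?_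
    linear_combination ph * (-1 : OO) * eX' + eX + n * M * hpp
  have eP : ph * X' * k + X * k' = -(ph * n' * M') := by
    refine CPA_cancel c2 ?_
    linear_combination ph * eX' + eX - n * M * hpp
  -- the discriminant
  obtain ⟨G, hG⟩ : ∃ G : OO, G = n ^ 2 * n' - X ^ 2 := ⟨_, rfl⟩
  have sG : star G = n' ^ 2 * n - X' ^ 2 := by
    rw [hG]
    simp only [star_mul', star_sub, star_pow, starn]
    rfl
  have eG : k' ^ 2 * G = ph ^ 2 * k ^ 2 * star G := by
    rw [sG, hG]
    have h1 : ph ^ 2 * k ^ 2 * X' ^ 2 - k' ^ 2 * X ^ 2 = n * M * -(ph * n' * M') := by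
      rw [← eP]
      linear_combination (-(ph * X' * k + X * k')) * e2
    have h2 : n * M * -(ph * n' * M') = ph * n * n' * (ph * n' * k ^ 2 + star ph * n * k' ^ 2) := by
      rw [e4]
      ring
    rw [h2] at h1
    linear_combination h1 + n ^ 2 * n' * k' ^ 2 * hpp
  have hG1 : k ^ 2 ∣ G := by
    have h1 : k ^ 2 ∣ k' ^ 2 * G := by
      rw [eG]
      exact ⟨ph ^ 2 * star G, by ring⟩
    exact (IsCoprime.pow ckk).dvd_of_dvd_mul_left h1
  obtain ⟨G₁, hG₁⟩ := hG1
  have ckn : (k ^ 2 * k' ^ 2).norm ≠ 0 := by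
    rw [map_mul, map_pow, map_pow]
    exact mul_ne_zero (pow_ne_zero _ K.n0) (pow_ne_zero _ K'.n0)
  have sG2 : star G = k' ^ 2 * star G₁ := by
    rw [hG₁, star_mul', star_pow]
  have eG₁ : G₁ = ph ^ 2 * star G₁ := by
    refine CPA_cancel ckn ?_
    rw [sG2] at eG
    rw [hG₁] at eG
    linear_combination eG
  obtain ⟨z, hz⟩ : ∃ z : OO, z = star ph * G₁ := ⟨_, rfl⟩
  have sz : star z = -z := by
    have h1 : star z = ph * star G₁ := by rw [hz, star_mul', star_star]
    rw [h1, hz]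
    linear_combination (star ph) * eG₁ + (ph * star G₁) * hpp
  obtain ⟨x, hx⟩ : ∃ x : ℤ, x = z.re := ⟨_, rfl⟩
  have hzx : z = -((x : OO) * r5) := by
    have h1 := congrArg QuadraticAlgebra.re sz
    rw [QuadraticAlgebra.re_star, QuadraticAlgebra.re_neg] at h1
    ext
    · simp [r5, hx]
    · simp [r5, hx]
      linarith
  have hGx : G = (x : OO) * w2 * k ^ 2 := by
    have h1 : G₁ = (x : OO) * w2 := by
      have h2 : G₁ = -(ph * z) := by
        rw [hz]
        linear_combination G₁ * hpp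
      rw [h2, hzx, CPA_w2]
      ring
    rw [hG₁, h1]
    ring
  -- the prime 5
  obtain ⟨n₀, hn25, hm5a, hm5b, hm5c⟩ := hC.m5
  rw [CPA_ns] at hm5a
  have dM : (E : OO) ∣ M' - star M₀ := by
    have h1 := CPA_star_dvd hM
    rwa [star_natCast, star_sub] at h1
  have ds : (E : OO) ∣ (s : OO) - (s₀ : OO) := by
    have h1 := (Int.cast_dvd_cast (α := OO) _ _ hs)
    push_cast at h1
    exact h1
  have dN : (E : OO) ∣ (r5 * (s : OO) - M * M') - (r5 * (s₀ : OO) - M₀ * star M₀) := by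
    have e : (r5 * (s : OO) - M * M') - (r5 * (s₀ : OO) - M₀ * star M₀) = ((s : OO) - (s₀ : OO)) * r5 - ((M - M₀) * M' + (M' - star M₀) * M₀) := by ring
    rw [e]
    exact dvd_sub (ds.mul_right _) (dvd_add (hM.mul_right _) (dM.mul_right _))
  have c52 : IsCoprime (5 : OO) 2 := ⟨1, -2, by norm_num⟩
  have dn' : (5 ^ 6 : OO) ∣ n' - star n₀ := by
    have h1 : (5 ^ 6 : OO) ∣ 2 * ph * k ^ 2 * (n' - star n₀) := by
      have e : 2 * ph * k ^ 2 * (n' - star n₀) = ((r5 * (s : OO) - M * M') - (r5 * (s₀ : OO) - M₀ * star M₀)) -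
          (2 * ph * star n₀ * k ^ 2 - (r5 * (s₀ : OO) - M₀ * star M₀)) := by linear_combination eA
      rw [e]
      exact dvd_sub (h56E'.trans dN) hm5a
    have h2 : IsCoprime (5 ^ 6 : OO) (2 * ph * k ^ 2) := IsCoprime.pow_left ((c52.mul_right (cph 5)).mul_right (ck5.symm.pow_right))
    exact h2.dvd_of_dvd_mul_left h1
  have dn : (5 ^ 6 : OO) ∣ n - n₀ := by
    have h1 := CPA_star_dvd dn'
    rwa [star_pow, star_ofNat, star_sub, star_star, star_star] at h1
  have dX : (5 ^ 6 : OO) ∣ X - 1 := by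
    have h1 : (5 ^ 6 : OO) ∣ 2 * k' * (X - 1) := by
      have e : 2 * k' * (X - 1) = -(((n - n₀) * M + (M - M₀) * n₀ + ph * ((n' - star n₀) * M' + (M' - star M₀) * star n₀))) -
          (n₀ * M₀ + ph * star n₀ * star M₀ + 2 * k') := by linear_combination eX
      rw [e]
      refine dvd_sub ((dvd_neg).2 (dvd_add (dvd_add (dn.mul_right _) ((h56E'.trans hM).mul_right _)) (Dvd.dvd.mul_left ?_ _))) hm5b
      exact dvd_add (dn'.mul_right _) ((h56E'.trans dM).mul_right _)
    have h2 : IsCoprime (5 ^ 6 : OO) (2 * k') := IsCoprime.pow_left (c52.mul_right ck'5.symm)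
    exact h2.dvd_of_dvd_mul_left h1
  have dx : (5 ^ 6 : ℤ) ∣ x - 1250 := by
    have h1 : (5 ^ 6 : OO) ∣ k ^ 2 * (ph * (r5 * ((x : OO) - 1250))) := by
      have e : k ^ 2 * (ph * (r5 * ((x : OO) - 1250))) = ((n - n₀) * ((n + n₀) * n') + (n' - star n₀) * n₀ ^ 2) - (X - 1) * (X + 1) +
          (n₀ ^ 2 * star n₀ - 1 - 1250 * w2 * k ^ 2) := by
        rw [CPA_w2]
        have h2 := hGx
        rw [hG, CPA_w2] at h2
        linear_combination (-1 : OO) * h2
      rw [e]
      exact dvd_add (dvd_sub (dvd_add (dn.mul_right _) (dn'.mul_right _)) (dX.mul_right _)) hm5c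
    have h2 : (5 ^ 6 : OO) ∣ r5 * ((x : OO) - 1250) := by
      have h3 := (IsCoprime.pow_left ck5.symm.pow_right : IsCoprime (5 ^ 6 : OO) (k ^ 2)).dvd_of_dvd_mul_left h1
      exact (cph (5 ^ 6 : OO)).dvd_of_dvd_mul_left h3
    have h3 : ((5 ^ 6 : ℤ) : OO) ∣ r5 * ((x - 1250 : ℤ) : OO) := by
      push_cast
      exact h2
    rw [CPA_castdvd] at h3
    have h4 := h3.1
    have e : (r5 * ((x - 1250 : ℤ) : OO)).re = -(x - 1250) := CPA_r5re _
    rw [e] at h4
    exact (dvd_neg).1 h4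
  obtain ⟨y, hy⟩ := dx
  obtain ⟨D, hD⟩ : ∃ D : ℤ, D = 2 + 25 * y := ⟨_, rfl⟩
  have hxD : x = 625 * D := by
    rw [hD]
    linarith
  have eD : X ^ 2 + w2 * (D : OO) * (25 * k) ^ 2 = n ^ 2 * n' := by
    have h2 := hGx
    rw [hG, hxD] at h2
    push_cast at h2
    linear_combination (-1 : OO) * h2
  -- the prime 2
  have eA2 : ph * n' * k ^ 2 = r5 * (1 + 8 * (u : OO)) - 128 * (m * star m) := by
    refine CPA_cancel c2 ?_
    have h1 := eA
    rw [hm', hsO] at h1
    rw [hm] at h1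
    linear_combination h1
  have eB2 : star ph * n * k' ^ 2 = -(r5 * (1 + 8 * (u : OO))) - 128 * (m * star m) := by
    refine CPA_cancel c2 ?_
    have h1 := eB
    rw [hm', hsO] at h1
    rw [hm] at h1
    linear_combination h1
  have cn2 : IsCoprime 2 n := by
    refine ⟨ph + 4 * (u : OO) * r5 + 64 * (m * star m), star ph * k' ^ 2, ?_⟩
    linear_combination eB2 - CPA_r5p
  have hD8 : D % 8 = 5 := by
    have hkk : k * k' = ((k.norm : ℤ) : OO) := (CPA_ns k).symm
    have hodd : k.norm % 2 = 1 ∨ k.norm % 2 = -1 := by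
      have h1 : ¬ (2 : ℤ) ∣ k.norm := by
        intro h2
        have h3 : (2 : ℤ) ∣ q := h2.trans K.nq
        have h4 := (Int.prime_two.dvd_prime_iff_associated hqp).1 h3
        exact hq2 h4.symm.dvd
      omega
    have hN4 : (8 : ℤ) ∣ k.norm ^ 4 - 1 := by
      have h1 : k.norm % 8 = 1 ∨ k.norm % 8 = 3 ∨ k.norm % 8 = 5 ∨ k.norm % 8 = 7 := by omega
      have h2 : (k.norm ^ 4 - 1) % 8 = 0 := by
        rcases h1 with h | h | h | h <;> simp [Int.sub_emod, pow_succ, Int.mul_emod, h]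
      exact Int.dvd_of_emod_eq_zero h2
    have h1 : ((8 : ℤ) : OO) ∣ r5 * ((625 * D * k.norm ^ 4 - 5 : ℤ) : OO) := by
      obtain ⟨α, hα⟩ : ∃ α : OO, α = r5 * (u : OO) - 16 * (m * star m) := ⟨_, rfl⟩
      obtain ⟨β, hβ⟩ : ∃ β : OO, β = -(r5 * (u : OO)) - 16 * (m * star m) := ⟨_, rfl⟩
      have a1 : ph * n' * k ^ 2 = r5 + 8 * α := by
        rw [eA2, hα]
        ring
      have b1 : star ph * n * k' ^ 2 = -r5 + 8 * β := by
        rw [eB2, hβ]
        ring
      have e1 : (ph * n' * k ^ 2) * (star ph * n * k' ^ 2) ^ 2 = -(star ph) * (n ^ 2 * n') * (k ^ 2 * k' ^ 4) := by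
        linear_combination (star ph * n ^ 2 * n' * k ^ 2 * k' ^ 4) * hpp
      have e2' : n ^ 2 * n' = 8 * (8 * Y ^ 2) + r5 * ph * (625 * (D : OO)) * k ^ 2 := by
        rw [← eD, hX, CPA_w2]
        ring
      have e3 : r5 * ((625 * D * k.norm ^ 4 - 5 : ℤ) : OO) = (r5 + 8 * α) * (-r5 + 8 * β) ^ 2 + star ph * (8 * (8 * Y ^ 2)) * (k ^ 2 * k' ^ 4) - 5 * r5 := by
        rw [← a1, ← b1, e1, e2']
        push_cast
        rw [← hkk]
        linear_combination (r5 * (625 * (D : OO)) * k ^ 4 * k' ^ 4) * hpp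
      rw [e3]
      refine ⟨α * (-r5 + 8 * β) ^ 2 + r5 * (-2 * r5 * β + 8 * β ^ 2) + star ph * (8 * Y ^ 2) * (k ^ 2 * k' ^ 4), ?_⟩
      push_cast
      linear_combination r5 * h55
    rw [CPA_castdvd] at h1
    have h2 := h1.1
    have e : (r5 * ((625 * D * k.norm ^ 4 - 5 : ℤ) : OO)).re = -(625 * D * k.norm ^ 4 - 5) := CPA_r5re _
    rw [e] at h2
    have h3 : (8 : ℤ) ∣ 625 * D * k.norm ^ 4 - 5 := (dvd_neg).1 h2
    have h4 : (8 : ℤ) ∣ 625 * D * (k.norm ^ 4 - 1) := hN4.mul_left _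
    have h5 : (8 : ℤ) ∣ 625 * D - 5 := by
      have h6 := dvd_sub h3 h4
      have e6 : 625 * D * k.norm ^ 4 - 5 - 625 * D * (k.norm ^ 4 - 1) = 625 * D - 5 := by ring
      rwa [e6] at h6
    omega
  have hD20 : D % 20 = 17 := by omega
  -- coprimality
  have hkMM : ¬ k ∣ M * M' := by
    intro h1
    rw [← ht] at h1
    exact hqM (K.nq.trans (K.int h1))
  have hkn : ¬ k ∣ n := by
    intro h1
    apply hkMM
    have h2 : k ∣ -(M * M') := by
      rw [← e4]
      exact dvd_add (Dvd.dvd.mul_left (dvd_pow_self k (by norm_num)) _) ((h1.mul_left _).mul_right _)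
    exact (dvd_neg).1 h2
  have hkn' : ¬ k ∣ n' := by
    intro h1
    have h2 : k ∣ X * X := by
      have e : X * X = n' * n ^ 2 - k * (w2 * (D : OO) * 625 * k) := by
        linear_combination eD
      rw [e]
      exact dvd_sub (h1.mul_right _) (dvd_mul_right _ _)
    have h3 : k ∣ X := by
      rcases K.prime h2 with h | h <;> exact h
    have h4 : k ∣ n * M := by
      have e : n * M = -(2 * k' * X) - ph * n' * M' := by
        linear_combination eX
      rw [e]
      exact dvd_sub ((dvd_neg).2 (h3.mul_left _)) ((h1.mul_left _).mul_right _)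
    rcases K.prime h4 with h | h
    · exact hkn h
    · exact hkMM (h.mul_right _)
  have hqn : ¬ q ∣ n.norm := by
    intro h1
    have h2 : k ∣ n * n' := by
      have h3 : k ∣ ((n.norm : ℤ) : OO) := K.qdvd.trans (Int.cast_dvd_cast _ _ h1)
      rwa [CPA_ns] at h3
    rcases K.prime h2 with h | h
    · exact hkn h
    · exact hkn' h
  have hcn := K.cint hqn
  rw [CPA_ns] at hcn
  -- modulo `P`
  have dP : (P : OO) ∣ n - 1 := by
    have hmP := hC.mP
    rw [CPA_ns] at hmP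
    have h1 : (P : OO) ∣ 2 * ph * k ^ 2 * (n' - 1) := by
      have e : 2 * ph * k ^ 2 * (n' - 1) = ((r5 * (s : OO) - M * M') - (r5 * (s₀ : OO) - M₀ * star M₀)) -
          (2 * ph * k ^ 2 - (r5 * (s₀ : OO) - M₀ * star M₀)) := by linear_combination eA
      rw [e]
      exact dvd_sub (hPE'.trans dN) hmP
    have cP2 : IsCoprime (P : OO) 2 := by
      have h2 : IsCoprime (P : ℤ) 2 := by
        have h3 : Nat.Coprime P 2 := Nat.Coprime.coprime_dvd_right (by norm_num) hP10
        exact_mod_cast Nat.isCoprime_iff_coprime.2 h3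
      have h4 := CPA_icop h2
      exact_mod_cast h4
    have h2 : IsCoprime (P : OO) (2 * ph * k ^ 2) := (cP2.mul_right (cph _)).mul_right (ckP.symm.pow_right)
    have h3 := h2.dvd_of_dvd_mul_left h1
    have h4 := CPA_star_dvd h3
    rwa [star_natCast, star_sub, star_one, starn] at h4
  refine ⟨n, X, D, ?_, eX, eD, e2, ?_, ?_, hcn.of_mul_right_left, hcn.of_mul_right_right, cn2, hD20, dP⟩
  · rw [ht]
    exact eA
  · exact dvd_trans ⟨625, by norm_num⟩ dX
  · have h1 : (25 : OO) ∣ n - n₀ := dvd_trans ⟨625, by norm_num⟩ dn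
    have h2 := dvd_add h1 hn25
    rwa [sub_add_sub_cancel] at h2

end Pool.Agent.RF
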