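import Pool.Agent.helper95.RF.SpecC
import Pool.Agent.helper22.OC.BB6a

/-!
# Row rf:CPR (MP_16912e_nt): many primes `≡ ± 1` modulo `5` in a dyadic interval
-/

set_option autoImplicit false

namespace Pool.Agent.RF

open Finset NumberField Pool.Agent.helper3.FT Filter Topology
open ArithmeticFunction (vonMangoldt)
open Pool.Agent.helper7.OC (PA)
open Pool.Agent.helper7.OC.BB6a (abel_bound logdiv_anti mertens T T_approx delta_le)

/-- real completely multiplicative functions with small sums -/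
structure CPR_Chi (χ : ℕ → ℝ) : Prop where
  mul : ∀ m n, χ (m * n) = χ m * χ n
  le : ∀ n, |χ n| ≤ 1
  sum : ∀ x : ℕ, |∑ n ∈ Ioc 0 x, χ n| ≤ 1
  eight : 3 / 10 ≤ ∑ n ∈ Ioc 0 8, χ n / n

lemma CPR_sum_Ioc {χ : ℕ → ℝ} (h : CPR_Chi χ) (x y : ℕ) (hxy : x ≤ y) :
    |∑ n ∈ Ioc x y, χ n| ≤ 2 := by
  have h1 := h.sum x
  have h2 := h.sum y
  have h3 := sum_Ioc_consecutive χ (Nat.zero_le x) hxy
  rw [abs_le] at *
  constructor <;> linarith [h1.1, h1.2, h2.1, h2.2]

lemma CPR_tail {χ : ℕ → ℝ} (h : CPR_Chi χ) (x y : ℕ) (hxy : x ≤ y) :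
    |∑ n ∈ Ioc x y, χ n / n| ≤ 2 / (x + 1) := by
  have := abel_bound χ (fun n => 1 / (n : ℝ)) 2 x (CPR_sum_Ioc h x) (fun n hn => by
    have : (0 : ℝ) < n := by exact_mod_cast (by omega : 0 < n)
    push_cast
    exact one_div_le_one_div_of_le this (by linarith)) (fun n => by positivity) y hxy
  simp only [mul_one_div] at this
  push_cast at this
  exact this

/-- the value at one -/
lemma CPR_lim {χ : ℕ → ℝ} (h : CPR_Chi χ) : ∃ L : ℝ, 1 / 20 ≤ L ∧ ∀ x : ℕ,
    |∑ n ∈ Ioc 0 x, χ n / n - L| ≤ 4 / (x + 1) := by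
  have h1 : ∀ x y : ℕ, x ≤ y → |∑ n ∈ Ioc 0 x, χ n / n - ∑ n ∈ Ioc 0 y, χ n / n| ≤ 2 / (x + 1) := by
    intro x y hxy
    have h3 := sum_Ioc_consecutive (fun n => χ n / n) (Nat.zero_le x) hxy
    rw [← h3, sub_add_cancel_left, abs_neg]
    exact CPR_tail h x y hxy
  have h2 : CauchySeq (fun x : ℕ => ∑ n ∈ Ioc 0 x, χ n / n) := by
    refine cauchySeq_of_le_tendsto_0' (fun x : ℕ => 2 / ((x : ℝ) + 1)) (fun x y hxy => ?_) ?_
    · rw [Real.dist_eq]; exact h1 x y hxy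
    · exact Tendsto.div_atTop tendsto_const_nhds
        (tendsto_atTop_add_const_right _ _ tendsto_natCast_atTop_atTop)
  obtain ⟨L, hL⟩ := cauchySeq_tendsto_of_complete h2
  have h4 : ∀ x : ℕ, |∑ n ∈ Ioc 0 x, χ n / n - L| ≤ 2 / (x + 1) := by
    intro x
    refine le_of_tendsto ((tendsto_const_nhds.sub hL).abs) ?_
    filter_upwards [eventually_ge_atTop x] with y hy using h1 x y hy
  refine ⟨L, ?_, fun x => (h4 x).trans ?_⟩
  · have h5 := h4 8
    have h6 := h.eight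
    rw [abs_le] at h5
    norm_num at h5
    linarith [h5.2]
  · have : (0 : ℝ) < (x : ℝ) + 1 := by positivity
    gcongr
    norm_num

lemma CPR_log_sum {χ : ℕ → ℝ} (h : CPR_Chi χ) (x : ℕ) :
    |∑ n ∈ Ioc 0 x, χ n * (Real.log n / n)| ≤ 4 := by
  have hl3 : Real.log 3 ≤ 2 := by
    have := Real.log_le_sub_one_of_pos (x := 3) (by norm_num); linarith
  have hl2 : Real.log 2 ≤ 1 := by
    have := Real.log_le_sub_one_of_pos (x := 2) (by norm_num); linarith
  have hl20 : 0 ≤ Real.log 2 := Real.log_nonneg (by norm_num)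
  have hl30 : 0 ≤ Real.log 3 := Real.log_nonneg (by norm_num)
  have e2 : |χ 2 * (Real.log 2 / 2)| ≤ 1 := by
    rw [abs_mul, abs_of_nonneg (by positivity : 0 ≤ Real.log 2 / 2)]
    have := h.le 2
    nlinarith [abs_nonneg (χ 2)]
  rcases Nat.lt_or_ge x 2 with hx | hx
  · interval_cases x
    · simp
    · rw [show Ioc 0 1 = {1} by rfl]; simp
  · have h1 := abel_bound χ (fun n => Real.log n / n) 2 2 (CPR_sum_Ioc h 2)
      (fun n hn => logdiv_anti n hn) (fun n => by positivity) x hx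
    have h3 := sum_Ioc_consecutive (fun n => χ n * (Real.log n / n)) (Nat.zero_le 2) hx
    have h4 : ∑ n ∈ Ioc 0 2, χ n * (Real.log n / n) = χ 2 * (Real.log 2 / 2) := by
      rw [show Ioc 0 2 = {1, 2} by rfl, sum_pair (by norm_num)]; simp
    rw [← h3, h4]
    norm_num at h1
    have := abs_add_le (χ 2 * (Real.log 2 / 2)) (∑ n ∈ Ioc 2 x, χ n * (Real.log n / n))
    have h5 : 2 * (Real.log 3 / 3) ≤ 8 / 3 := by linarith
    linarith

/-- Mertens for a nonprincipal character. -/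
lemma CPR_mertens {χ : ℕ → ℝ} (h : CPR_Chi χ) (N : ℕ) :
    |∑ n ∈ Ioc 0 N, χ n * (vonMangoldt n / n)| ≤ 600 := by
  rcases Nat.eq_zero_or_pos N with rfl | hN
  · simp
  have hN0 : (0 : ℝ) < N := by exact_mod_cast hN
  obtain ⟨L, hL0, hL⟩ := CPR_lim h
  let f : ArithmeticFunction ℝ := ⟨fun n => χ n * (vonMangoldt n / n), by simp⟩
  let g : ArithmeticFunction ℝ := ⟨fun n => χ n / n, by simp⟩
  have hfg : ∀ n, (f * g) n = χ n * (Real.log n / n) := by
    intro n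
    rcases Nat.eq_zero_or_pos n with rfl | hn
    · simp
    rw [ArithmeticFunction.mul_apply]
    have h1 : ∀ p ∈ n.divisorsAntidiagonal, f p.1 * g p.2 = χ n / n * vonMangoldt p.1 := by
      intro p hp
      obtain ⟨hp1, hp2⟩ := Nat.mem_divisorsAntidiagonal.1 hp
      have h3 : (p.1 : ℝ) ≠ 0 := by
        rintro h
        have h' : p.1 = 0 := by exact_mod_cast h
        rw [h', zero_mul] at hp1; exact hp2 hp1.symm
      have h4 : (p.2 : ℝ) ≠ 0 := by
        rintro h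
        have h' : p.2 = 0 := by exact_mod_cast h
        rw [h', mul_zero] at hp1; exact hp2 hp1.symm
      show χ p.1 * (vonMangoldt p.1 / p.1) * (χ p.2 / p.2) = _
      rw [← hp1, h.mul]
      push_cast
      field_simp
    rw [sum_congr rfl h1, ← mul_sum, Nat.sum_divisorsAntidiagonal (fun d _ => vonMangoldt d),
      ArithmeticFunction.vonMangoldt_sum]
    ring
  have h1 := ArithmeticFunction.sum_Ioc_mul_eq_sum_sum f g N
  simp_rw [hfg] at h1
  have h2 := CPR_log_sum h N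
  rw [h1] at h2
  have h3 : ∑ n ∈ Ioc 0 N, f n * ∑ m ∈ Ioc 0 (N / n), g m
      = L * ∑ n ∈ Ioc 0 N, χ n * (vonMangoldt n / n)
        + ∑ n ∈ Ioc 0 N, f n * (∑ m ∈ Ioc 0 (N / n), g m - L) := by
    rw [mul_sum, ← sum_add_distrib]
    refine sum_congr rfl fun n _ => ?_
    show χ n * (vonMangoldt n / n) * _ = L * (χ n * (vonMangoldt n / n))
      + χ n * (vonMangoldt n / n) * _
    ring
  have h4 : |∑ n ∈ Ioc 0 N, f n * (∑ m ∈ Ioc 0 (N / n), g m - L)| ≤ 24 := by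
    have e1 : ∀ n ∈ Ioc 0 N, |f n * (∑ m ∈ Ioc 0 (N / n), g m - L)| ≤ 4 / N * vonMangoldt n := by
      intro n hn
      rw [mem_Ioc] at hn
      have hn0 : (0 : ℝ) < n := by exact_mod_cast hn.1
      have hΛ : 0 ≤ vonMangoldt n := ArithmeticFunction.vonMangoldt_nonneg
      rw [abs_mul]
      have e2 : |f n| ≤ vonMangoldt n / n := by
        show |χ n * (vonMangoldt n / n)| ≤ _
        rw [abs_mul, abs_of_nonneg (by positivity : 0 ≤ vonMangoldt n / n)]
        exact mul_le_of_le_one_left (by positivity) (h.le n)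
      have e3 : |∑ m ∈ Ioc 0 (N / n), g m - L| ≤ 4 * n / N := by
        refine (hL (N / n)).trans ?_
        rw [div_le_div_iff₀ (by positivity) hN0]
        have e4 : (N : ℝ) ≤ n * (((N / n : ℕ) : ℝ) + 1) := by
          have := Nat.lt_mul_div_succ N hn.1
          exact_mod_cast this.le
        calc (4 : ℝ) * N ≤ 4 * (n * (((N / n : ℕ) : ℝ) + 1)) := by gcongr
          _ = _ := by ring
      calc |f n| * |∑ m ∈ Ioc 0 (N / n), g m - L| ≤ vonMangoldt n / n * (4 * n / N) := by gcongr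
        _ = _ := by field_simp
    have e5 := (abs_sum_le_sum_abs (fun n => f n * (∑ m ∈ Ioc 0 (N / n), g m - L)) (Ioc 0 N)).trans
      (sum_le_sum e1)
    rw [← mul_sum] at e5
    have e6 : ∑ n ∈ Ioc 0 N, vonMangoldt n ≤ (Real.log 4 + 4) * N := by
      have := Chebyshev.psi_le_const_mul_self (x := (N : ℝ)) hN0.le
      rwa [Chebyshev.psi, Nat.floor_natCast] at this
    have e7 : Real.log 4 ≤ 2 := by
      have : Real.log 4 = 2 * Real.log 2 := by
        rw [show (4 : ℝ) = 2 ^ 2 by norm_num, Real.log_pow]; norm_num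
      rw [this]
      have := Real.log_two_lt_d9
      linarith
    calc _ ≤ _ := e5
      _ ≤ 4 / N * ((Real.log 4 + 4) * N) := by gcongr
      _ = 4 * (Real.log 4 + 4) := by field_simp
      _ ≤ 24 := by linarith
  rw [h3] at h2
  set T := ∑ n ∈ Ioc 0 N, χ n * (vonMangoldt n / n) with hT
  have h5 : |L * T| ≤ 28 := by
    have := abs_sub (L * T + ∑ n ∈ Ioc 0 N, f n * (∑ m ∈ Ioc 0 (N / n), g m - L))
      (∑ n ∈ Ioc 0 N, f n * (∑ m ∈ Ioc 0 (N / n), g m - L))
    rw [add_sub_cancel_right] at this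
    linarith
  rw [abs_mul, abs_of_pos (by linarith : 0 < L)] at h5
  have h6 : 1 / 20 * |T| ≤ L * |T| := mul_le_mul_of_nonneg_right hL0 (abs_nonneg _)
  linarith

/-- the quadratic character modulo 5 -/
def CPR_f : ℕ → ℤ := fun n => if n = 1 ∨ n = 4 then 1 else if n = 2 ∨ n = 3 then -1 else 0

noncomputable def CPR_c (n : ℕ) : ℝ := (CPR_f (n % 5) : ℝ)

lemma CPR_tab_sum (q r : ℕ) : ∑ n ∈ Ioc 0 (5 * q + r), CPR_f (n % 5) = ∑ n ∈ Ioc 0 r, CPR_f (n % 5) := by
  induction q with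
  | zero => simp
  | succ q ih =>
    rw [← ih, show 5 * (q + 1) + r = 5 * q + r + 1 + 1 + 1 + 1 + 1 by ring]
    generalize 5 * q + r = x
    rw [sum_Ioc_succ_top (by omega), sum_Ioc_succ_top (by omega), sum_Ioc_succ_top (by omega),
      sum_Ioc_succ_top (by omega), sum_Ioc_succ_top (by omega)]
    have hx : x % 5 < 5 := Nat.mod_lt _ (by norm_num)
    have e : ∀ i, (x + i) % 5 = (x % 5 + i) % 5 := fun i => by omega
    simp only [Nat.add_assoc, Nat.reduceAdd]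
    rw [e 1, e 2, e 3, e 4, e 5]
    generalize x % 5 = y at hx
    interval_cases y <;> simp [CPR_f]

lemma CPR_chi : CPR_Chi CPR_c where
  mul m n := by
    have hm : ∀ a < 5, ∀ b < 5, CPR_f (a * b % 5) = CPR_f a * CPR_f b := by decide
    rw [CPR_c, CPR_c, CPR_c, Nat.mul_mod, hm _ (Nat.mod_lt _ (by norm_num)) _ (Nat.mod_lt _ (by norm_num))]
    push_cast; rfl
  le n := by
    have hl : ∀ a < 5, |CPR_f a| ≤ 1 := by decide
    have := hl (n % 5) (Nat.mod_lt _ (by norm_num))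
    rw [CPR_c]
    exact_mod_cast this
  sum x := by
    have hs : ∀ a < 5, |∑ n ∈ Ioc 0 a, CPR_f (n % 5)| ≤ 1 := by decide
    have h1 := CPR_tab_sum (x / 5) (x % 5)
    rw [Nat.div_add_mod] at h1
    have h2 := hs (x % 5) (Nat.mod_lt _ (by norm_num))
    rw [← h1] at h2
    have h3 : ∑ n ∈ Ioc 0 x, CPR_c n = ((∑ n ∈ Ioc 0 x, CPR_f (n % 5) : ℤ) : ℝ) := by
      push_cast; rfl
    rw [h3]
    exact_mod_cast h2
  eight := by
    rw [show Ioc 0 8 = {1, 2, 3, 4, 5, 6, 7, 8} by rfl]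
    norm_num [CPR_c, CPR_f]

lemma CPR_T (V W : ℕ) (hV : 5 ≤ V) :
    2 * ∑ p ∈ (Ioc V W).filter (fun q => q.Prime ∧ (q % 5 = 1 ∨ q % 5 = 4)), Real.log p / p =
      T (fun _ => 1) V W + T CPR_c V W := by
  unfold T
  rw [← sum_add_distrib, mul_sum]
  have h1 : (Ioc V W).filter (fun q => q.Prime ∧ (q % 5 = 1 ∨ q % 5 = 4)) = (PA V W).filter fun p => (p % 5 = 1 ∨ p % 5 = 4) := by
    ext p; simp only [PA, mem_filter, and_assoc]
  rw [h1, sum_filter]
  refine sum_congr rfl fun p hp => ?_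
  rw [PA, mem_filter, mem_Ioc] at hp
  have h2 : p % 5 ≠ 0 := by
    intro h
    have h3 : 5 ∣ p := Nat.dvd_of_mod_eq_zero h
    have h4 := (Nat.prime_dvd_prime_iff_eq Nat.prime_five hp.2).1 h3
    omega
  have h3 : p % 5 = 1 ∨ p % 5 = 2 ∨ p % 5 = 3 ∨ p % 5 = 4 := by omega
  rcases h3 with h | h | h | h
  all_goals
    simp [CPR_c, CPR_f, h]
    try ring

theorem CPR : CPR_stmt := by
  have hl2 : 0.69 ≤ Real.log 2 := by
    have := Real.log_two_gt_d9
    linarith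
  obtain ⟨C₁, hC₁⟩ : ∃ C₁ : ℕ, C₁ = 2 ^ 2000 := ⟨_, rfl⟩
  have hC1 : 1 ≤ C₁ := by
    rw [hC₁]
    exact Nat.one_le_two_pow
  have hlC : 1300 ≤ Real.log C₁ := by
    rw [hC₁]
    push_cast
    rw [Real.log_pow]
    push_cast
    linarith
  refine ⟨2 * C₁, 1 / 4000, ((4096 * C₁ ^ 3 : ℕ) : ℝ), by omega, by norm_num, fun X hX => ?_⟩
  have hX1 : (4096 : ℝ) ≤ X := by
    refine le_trans ?_ hX
    have : 4096 ≤ 4096 * C₁ ^ 3 := Nat.le_mul_of_pos_right _ (pow_pos (by omega) 3)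
    exact_mod_cast this
  set V : ℕ := ⌈X⌉₊ with hVd
  have hXV : X ≤ V := Nat.le_ceil X
  have hVX : (V : ℝ) ≤ 2 * X := by
    have := (Nat.ceil_lt_add_one (show 0 ≤ X by linarith)).le
    linarith
  have hV : 4096 * C₁ ^ 3 ≤ V := by
    have : ((4096 * C₁ ^ 3 : ℕ) : ℝ) ≤ V := hX.trans hXV
    exact_mod_cast this
  have hV5 : 5 ≤ V := by
    have : (4096 : ℝ) ≤ V := hX1.trans hXV
    have : 4096 ≤ V := by exact_mod_cast this
    omega
  have hV0 : (0 : ℝ) < V := by exact_mod_cast (by omega : 0 < V)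
  set W := C₁ * V with hW
  have hVW : V ≤ W := Nat.le_mul_of_pos_left V (by omega)
  have hlW : Real.log W = Real.log C₁ + Real.log V := by
    rw [hW, Nat.cast_mul]
    rw [Real.log_mul (by exact_mod_cast (by omega : C₁ ≠ 0)) hV0.ne']
  have hδ := delta_le C₁ V (by omega) hV
  rw [← hW] at hδ
  -- the principal part
  have t1 : Real.log C₁ - 8 ≤ T (fun _ => 1) V W := by
    have a1 := T_approx (fun _ => 1) (fun _ => by simp) V W (by omega) hVW
    have a2 := (mertens W (by omega)).1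
    have a3 := (mertens V (by omega)).2
    simp only [one_mul] at a1
    have a4 := (abs_le.1 (a1.trans hδ)).2
    linarith
  have t2 : -1201 ≤ T CPR_c V W := by
    have a1 := (T_approx CPR_c CPR_chi.le V W (by omega) hVW).trans hδ
    have a2 := CPR_mertens CPR_chi W
    have a3 := CPR_mertens CPR_chi V
    rw [abs_le] at a1 a2 a3
    linarith [a1.1, a1.2, a2.1, a2.2, a3.1, a3.2]
  have t3 := CPR_T V W hV5
  have t4 : 1 ≤ ∑ p ∈ (Ioc V W).filter (fun q => q.Prime ∧ (q % 5 = 1 ∨ q % 5 = 4)), Real.log p / p := by linarith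
  -- dyadic intervals
  have t5 : ∀ J : ℕ, ∑ p ∈ (Ioc V (2 ^ J * V)).filter (fun q => q.Prime ∧ (q % 5 = 1 ∨ q % 5 = 4)), Real.log p / (p : ℝ) =
      ∑ j ∈ range J, ∑ p ∈ (Ioc (2 ^ j * V) (2 * (2 ^ j * V))).filter (fun q => q.Prime ∧ (q % 5 = 1 ∨ q % 5 = 4)), Real.log p / (p : ℝ) := by
    intro J
    induction J with
    | zero => simp
    | succ J ih =>
      rw [sum_range_succ, ← ih, sum_filter, sum_filter, sum_filter]
      have e : 2 ^ (J + 1) * V = 2 * (2 ^ J * V) := by ring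
      rw [e]
      refine (sum_Ioc_consecutive _ ?_ ?_).symm
      · exact Nat.le_mul_of_pos_left V (by positivity)
      · omega
  have t6 := t5 2000
  rw [← hC₁, ← hW] at t6
  rw [t6] at t4
  obtain ⟨j, hj, hj2⟩ : ∃ j ∈ range 2000, (1 : ℝ) / 2000 ≤
      ∑ p ∈ (Ioc (2 ^ j * V) (2 * (2 ^ j * V))).filter (fun q => q.Prime ∧ (q % 5 = 1 ∨ q % 5 = 4)), Real.log p / (p : ℝ) := by
    by_contra hcon
    push Not at hcon
    have h1 := sum_lt_sum_of_nonempty (s := range 2000) ⟨0, by simp⟩ hcon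
    rw [sum_const, card_range, nsmul_eq_mul] at h1
    norm_num at h1
    linarith
  rw [mem_range] at hj
  obtain ⟨Q, hQ⟩ : ∃ Q : ℕ, Q = 2 ^ j * V := ⟨_, rfl⟩
  rw [← hQ] at hj2
  have hQV : V ≤ Q := by
    rw [hQ]
    exact Nat.le_mul_of_pos_left V (by positivity)
  have hQC : Q ≤ C₁ * V := by
    rw [hQ, hC₁]
    exact Nat.mul_le_mul_right V (Nat.pow_le_pow_right (by norm_num) hj.le)
  clear hC₁
  have hQ0 : (0 : ℝ) < Q := by exact_mod_cast (by omega : 0 < Q)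
  refine ⟨Q, hXV.trans (by exact_mod_cast hQV), ?_, ?_⟩
  · have h1 : (Q : ℝ) ≤ C₁ * V := by exact_mod_cast hQC
    calc (Q : ℝ) ≤ C₁ * V := h1
      _ ≤ C₁ * (2 * X) := mul_le_mul_of_nonneg_left hVX (Nat.cast_nonneg _)
      _ = ((2 * C₁ : ℕ) : ℝ) * X := by push_cast; ring
  · have hlQ : 0 < Real.log Q := Real.log_pos (by exact_mod_cast (by omega : 1 < Q))
    have t8 : ∑ p ∈ (Ioc Q (2 * Q)).filter (fun q => q.Prime ∧ (q % 5 = 1 ∨ q % 5 = 4)), Real.log p / (p : ℝ) ≤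
        ∑ p ∈ (Ioc Q (2 * Q)).filter (fun q => q.Prime ∧ (q % 5 = 1 ∨ q % 5 = 4)), Real.log ((2 * Q : ℕ) : ℝ) / (Q : ℝ) := by
      refine sum_le_sum fun p hp => ?_
      rw [mem_filter, mem_Ioc] at hp
      have hp0 : (0 : ℝ) < p := by exact_mod_cast hp.2.1.pos
      have h1 : Real.log p ≤ Real.log ((2 * Q : ℕ) : ℝ) := Real.log_le_log hp0 (by exact_mod_cast hp.1.2)
      have h2 : 0 ≤ Real.log ((2 * Q : ℕ) : ℝ) := Real.log_natCast_nonneg _
      have h3 : (Q : ℝ) ≤ p := by exact_mod_cast hp.1.1.le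
      exact div_le_div₀ h2 h1 hQ0 h3
    rw [sum_const, nsmul_eq_mul] at t8
    have t9 : Real.log ((2 * Q : ℕ) : ℝ) ≤ 2 * Real.log Q := by
      rw [Nat.cast_mul, Real.log_mul (by norm_num) hQ0.ne']
      have : Real.log ((2 : ℕ) : ℝ) ≤ Real.log Q := Real.log_le_log (by norm_num) (by exact_mod_cast (by omega : 2 ≤ Q))
      linarith
    have t10 := hj2.trans t8
    have t11 : (1 : ℝ) / 2000 ≤ (((Ioc Q (2 * Q)).filter (fun q => q.Prime ∧ (q % 5 = 1 ∨ q % 5 = 4))).card : ℝ) * (2 * Real.log Q / Q) := by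
      exact t10.trans (mul_le_mul_of_nonneg_left (div_le_div_of_nonneg_right t9 hQ0.le) (Nat.cast_nonneg _))
    rw [div_le_iff₀ hlQ]
    rw [← mul_div_assoc, le_div_iff₀ hQ0] at t11
    linarith

end Pool.Agent.RF
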